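import Mathlib

set_option autoImplicit false

namespace Pool.Agent.H59.CZ

theorem jac_int : IsJacobsonRing ℤ := by
  rw [isJacobsonRing_iff_prime_eq]
  intro P hP
  by_cases h : P = ⊥
  · subst h
    rw [eq_bot_iff]
    intro x hx
    rw [Ideal.mem_jacobson_bot] at hx
    have h1 := hx x
    rw [Int.isUnit_iff] at h1
    rw [Ideal.mem_bot]
    rcases h1 with h1 | h1 <;> nlinarith [mul_self_nonneg x]
  · have : P.IsMaximal := IsPrime.to_maximal_ideal h
    exact Ideal.jacobson_eq_self_of_isMaximal

/-- a field of finite type over `ℤ` is finite -/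
theorem fin_of_ft (k : Type) [Field k] [Algebra.FiniteType ℤ k] : Finite k := by
  have := jac_int
  have h1 : Module.Finite ℤ k := finite_of_finite_type_of_isJacobsonRing ℤ k
  have hI : Algebra.IsIntegral ℤ k := inferInstance
  apply Module.finite_of_fg_torsion
  by_cases hk : Function.Injective (algebraMap ℤ k)
  · exfalso
    exact Int.not_isField (isField_of_isIntegral_of_isField hk (Field.toIsField k))
  · obtain ⟨n, hn, h0⟩ : ∃ n : ℤ, n ≠ 0 ∧ (n : k) = 0 := by
      rw [injective_iff_map_eq_zero] at hk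
      push Not at hk
      obtain ⟨n, h1, h2⟩ := hk
      exact ⟨n, h2, by simpa using h1⟩
    intro x
    refine ⟨⟨n, mem_nonZeroDivisors_of_ne_zero hn⟩, ?_⟩
    change n • x = 0
    rw [zsmul_eq_mul, h0, zero_mul]

/-- a finitely generated subring of a field maps to a finite field -/
theorem hom0 (K : Type) [Field K] (F : Finset K) : ∃ (k : Type) (_ : Field k) (_ : Fintype k),
    Nonempty (Subring.closure (F : Set K) →+* k) := by
  classical
  have h2 : Algebra.adjoin ℤ (F : Set K) = subalgebraOfSubring (Subring.closure (F : Set K)) :=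
    Algebra.adjoin_int _
  have hft : Algebra.FiniteType ℤ (Subring.closure (F : Set K)) := by
    have h1 : Algebra.FiniteType ℤ (Algebra.adjoin ℤ (F : Set K)) := by
      rw [← Subalgebra.fg_iff_finiteType]
      exact ⟨F, rfl⟩
    have hm : ∀ x : Algebra.adjoin ℤ (F : Set K), (x : K) ∈ Subring.closure (F : Set K) := by
      rintro ⟨x, h3⟩
      rw [h2] at h3
      exact h3
    let f : Algebra.adjoin ℤ (F : Set K) →+* Subring.closure (F : Set K) :=
      RingHom.codRestrict ((Algebra.adjoin ℤ (F : Set K)).val : Algebra.adjoin ℤ (F : Set K) →+* K) _ hm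
    refine Algebra.FiniteType.of_surjective f.toIntAlgHom ?_
    rintro ⟨y, hy⟩
    have h4 : y ∈ Algebra.adjoin ℤ (F : Set K) := by
      rw [h2]
      exact hy
    exact ⟨⟨y, h4⟩, rfl⟩
  obtain ⟨M, hM⟩ := Ideal.exists_maximal (Subring.closure (F : Set K))
  have h5 : Algebra.FiniteType ℤ (Subring.closure (F : Set K) ⧸ M) :=
    Algebra.FiniteType.of_surjective (Ideal.Quotient.mkₐ ℤ M) (Ideal.Quotient.mkₐ_surjective ℤ M)
  have h6 : Finite (Subring.closure (F : Set K) ⧸ M) :=
    @fin_of_ft (Subring.closure (F : Set K) ⧸ M) (Ideal.Quotient.field M) h5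
  exact ⟨Subring.closure (F : Set K) ⧸ M, Ideal.Quotient.field M, Fintype.ofFinite _, ⟨Ideal.Quotient.mk M⟩⟩

end Pool.Agent.H59.CZ
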