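import Pool.Agent.H49.CZ.Stm
import Pool.Agent.H59.CZ.Hom0

/-! # CZ HOM: a finitely generated subring of a field maps to a finite field -/

set_option autoImplicit false

namespace Pool.Agent.H59.CZ

theorem hom : Pool.Agent.H49.CZ.S_HOM := fun K _ F => hom0 K F

end Pool.Agent.H59.CZ
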